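import Mathlib
import Pool.Agent.Q168.Density

/-! Exponential orthonormal bases for overlapping symmetric additive spaces:
for every `t ∈ [-1/2, 0)` there is none. -/

open MeasureTheory Complex Set
open scoped Real ComplexConjugate

noncomputable section

namespace Pool.Agent.Results.MP_476b1b_an.NoExponentialONB

/-- The exponential `e_l (x, y) = exp (2 π i (l₁ x + l₂ y))`. -/
def expo (l : ℝ × ℝ) (p : ℝ × ℝ) : ℂ :=
  Complex.exp (2 * π * Complex.I * ((l.1 * p.1 + l.2 * p.2 : ℝ) : ℂ))

/-- Lebesgue measure on `[t, t+1] × {0}` plus Lebesgue measure on `{0} × [t, t+1]`. -/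
def additiveMeasure (t : ℝ) : Measure (ℝ × ℝ) :=
  ((volume.restrict (Icc t (t + 1))).prod (Measure.dirac (0 : ℝ))) +
    ((Measure.dirac (0 : ℝ)).prod (volume.restrict (Icc t (t + 1))))

/-- `L` is the exponent set of an exponential orthonormal basis of `L²(μ)`: the exponentials
`e_l`, `l ∈ L`, each divided by its norm `√2`, are an orthonormal basis of `L²(μ)`. -/
def IsExponentialONB (μ : Measure (ℝ × ℝ)) (L : Set (ℝ × ℝ)) : Prop :=
  ∃ b : HilbertBasis L ℂ (Lp ℂ 2 μ),
    ∀ l : L, (b l : ℝ × ℝ → ℂ) =ᵐ[μ] fun p => ((Real.sqrt 2 : ℝ) : ℂ)⁻¹ * expo l p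

/-! ### The one-dimensional transform of the interval -/

/-- The Fourier transform of the interval. -/
def S (t u : ℝ) : ℂ := ∫ x in Icc t (t + 1), Complex.exp (2 * π * Complex.I * ((u * x : ℝ) : ℂ))

lemma S_eq (t u : ℝ) (hu : u ≠ 0) :
    S t u = Complex.exp (π * Complex.I * (((2 * t + 1) * u : ℝ) : ℂ)) *
      ((Real.sin (π * u) / (π * u) : ℝ) : ℂ) := by
  have h1 : S t u = ∫ x in t..(t + 1), Complex.exp ((2 * π * Complex.I * (u : ℂ)) * (x : ℂ)) := by
    rw [S, intervalIntegral.integral_of_le (by linarith), integral_Icc_eq_integral_Ioc]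
    apply setIntegral_congr_fun measurableSet_Ioc
    intro x _
    simp only
    congr 1
    push_cast
    ring
  have hc : (2 * π * Complex.I * (u : ℂ)) ≠ 0 := by
    have : (π : ℂ) ≠ 0 := by exact_mod_cast Real.pi_ne_zero
    have : (u : ℂ) ≠ 0 := by exact_mod_cast hu
    simp [*]
  rw [h1, integral_exp_mul_complex hc]
  have hpi : (π : ℂ) ≠ 0 := by exact_mod_cast Real.pi_ne_zero
  have hu' : (u : ℂ) ≠ 0 := by exact_mod_cast hu
  rw [div_eq_iff hc]
  push_cast
  rw [Complex.sin]
  have e1 : Complex.exp (2 * π * Complex.I * u * (t + 1)) =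
      Complex.exp (π * Complex.I * ((2 * t + 1) * u)) * Complex.exp ((π * u) * Complex.I) := by
    rw [← Complex.exp_add]; congr 1; ring
  have e2 : Complex.exp (2 * π * Complex.I * u * t) =
      Complex.exp (π * Complex.I * ((2 * t + 1) * u)) * Complex.exp (-(π * u) * Complex.I) := by
    rw [← Complex.exp_add]; congr 1; ring
  rw [e1, e2]
  have hI : Complex.I * Complex.I = -1 := Complex.I_mul_I
  field_simp
  ring_nf
  rw [show Complex.I ^ 2 = -1 from Complex.I_sq]
  ring

lemma S_zero (t : ℝ) : S t 0 = 1 := by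
  simp [S]

lemma norm_S_le (t u : ℝ) (hu : u ≠ 0) : ‖S t u‖ ≤ 1 / (π * |u|) := by
  rw [S_eq t u hu, norm_mul]
  have h1 : ‖Complex.exp (π * Complex.I * (((2 * t + 1) * u : ℝ) : ℂ))‖ = 1 := by
    rw [show (π : ℂ) * Complex.I * (((2 * t + 1) * u : ℝ) : ℂ) =
      ((π * ((2 * t + 1) * u) : ℝ) : ℂ) * Complex.I by push_cast; ring]
    exact Complex.norm_exp_ofReal_mul_I _
  rw [h1, one_mul, Complex.norm_real, Real.norm_eq_abs, abs_div, abs_mul, abs_of_pos Real.pi_pos]
  have : 0 < π * |u| := by positivity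
  gcongr
  exact Real.abs_sin_le_one _

lemma integrable_exp_Icc (t u : ℝ) :
    Integrable (fun x : ℝ => Complex.exp (2 * π * Complex.I * ((u * x : ℝ) : ℂ)))
      (volume.restrict (Icc t (t + 1))) := by
  apply Continuous.integrableOn_Icc
  fun_prop

/-! ### Integrals against the additive measure -/

instance (t : ℝ) : IsFiniteMeasure (volume.restrict (Icc t (t + 1))) :=
  ⟨by rw [Measure.restrict_apply_univ, Real.volume_Icc]; exact ENNReal.ofReal_lt_top⟩

instance (t : ℝ) : IsFiniteMeasure (additiveMeasure t) := by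
  unfold additiveMeasure
  infer_instance

lemma integral_additive (t : ℝ) (f : ℝ × ℝ → ℂ) (hf : Measurable f)
    (hb : ∃ C : ℝ, ∀ p, ‖f p‖ ≤ C) :
    ∫ p, f p ∂(additiveMeasure t) =
      (∫ x in Icc t (t + 1), f (x, 0)) + ∫ y in Icc t (t + 1), f (0, y) := by
  obtain ⟨C, hC⟩ := hb
  have hint : ∀ μ : Measure (ℝ × ℝ), IsFiniteMeasure μ → Integrable f μ := by
    intro μ hμ
    exact Integrable.of_bound hf.aestronglyMeasurable C (Filter.Eventually.of_forall hC)
  unfold additiveMeasure
  rw [integral_add_measure (hint _ inferInstance) (hint _ inferInstance),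
    Measure.prod_dirac, Measure.dirac_prod,
    integral_map (by fun_prop) hf.aestronglyMeasurable,
    integral_map (by fun_prop) hf.aestronglyMeasurable]

/-! ### Test functions on the first axis -/

/-- `e^{2 π i ξ x}` on the first axis and zero off it. -/
def axisFun (ξ : ℝ) (p : ℝ × ℝ) : ℂ :=
  {q : ℝ × ℝ | q.2 = 0}.indicator (fun q => Complex.exp (2 * π * Complex.I * ((ξ * q.1 : ℝ) : ℂ))) p

lemma measurable_axisFun (ξ : ℝ) : Measurable (axisFun ξ) := by
  unfold axisFun
  apply Measurable.indicator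
  · fun_prop
  · exact measurableSet_eq_fun measurable_snd measurable_const

lemma norm_exp_two_pi (a : ℝ) : ‖Complex.exp (2 * π * Complex.I * (a : ℂ))‖ = 1 := by
  rw [show (2 : ℂ) * π * Complex.I * (a : ℂ) = ((2 * π * a : ℝ) : ℂ) * Complex.I by push_cast; ring]
  exact Complex.norm_exp_ofReal_mul_I _

lemma norm_axisFun_le (ξ : ℝ) (p : ℝ × ℝ) : ‖axisFun ξ p‖ ≤ 1 := by
  unfold axisFun
  by_cases h : p ∈ {q : ℝ × ℝ | q.2 = 0}
  · rw [indicator_of_mem h, norm_exp_two_pi]
  · rw [indicator_of_notMem h]; simp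

lemma memLp_axisFun (t ξ : ℝ) : MemLp (axisFun ξ) 2 (additiveMeasure t) :=
  MemLp.of_bound (measurable_axisFun ξ).aestronglyMeasurable 1
    (Filter.Eventually.of_forall (norm_axisFun_le ξ))

/-- The test function as an element of `L²`. -/
def F (t ξ : ℝ) : Lp ℂ 2 (additiveMeasure t) := (memLp_axisFun t ξ).toLp _

lemma measurable_expo (l : ℝ × ℝ) : Measurable (expo l) := by
  unfold expo
  fun_prop

lemma norm_expo (l p : ℝ × ℝ) : ‖expo l p‖ = 1 := norm_exp_two_pi _

lemma conj_exp_two_pi (a : ℝ) :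
    conj (Complex.exp (2 * π * Complex.I * (a : ℂ))) = Complex.exp (2 * π * Complex.I * ((-a : ℝ) : ℂ)) := by
  rw [← Complex.exp_conj]
  congr 1
  have h2 : conj (2 : ℂ) = 2 := by
    rw [show (2 : ℂ) = ((2 : ℝ) : ℂ) by norm_num, Complex.conj_ofReal]
  simp only [map_mul, Complex.conj_ofReal, Complex.conj_I, h2]
  push_cast
  ring

lemma inner_expo_axis (t ξ : ℝ) (l : ℝ × ℝ) :
    ∫ p, conj (expo l p) * axisFun ξ p ∂(additiveMeasure t) = S t (ξ - l.1) := by
  rw [integral_additive t]
  · have h2 : ∫ y in Icc t (t + 1), conj (expo l (0, y)) * axisFun ξ (0, y) = 0 := by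
      apply integral_eq_zero_of_ae
      have : ∀ᵐ y : ℝ ∂(volume.restrict (Icc t (t + 1))), y ≠ 0 := by
        apply ae_restrict_of_ae
        exact Measure.ae_ne volume 0
      filter_upwards [this] with y hy
      simp [axisFun, hy]
    rw [h2, add_zero, S]
    apply setIntegral_congr_fun measurableSet_Icc
    intro x _
    simp only [expo, axisFun]
    rw [indicator_of_mem (by simp), conj_exp_two_pi, ← Complex.exp_add]
    congr 1
    push_cast
    ring
  · exact (Complex.continuous_conj.measurable.comp (measurable_expo l)).mul (measurable_axisFun ξ)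
  · refine ⟨1, fun p => ?_⟩
    rw [norm_mul, RCLike.norm_conj, norm_expo, one_mul]
    exact norm_axisFun_le ξ p

lemma inner_axis_axis (t ξ η : ℝ) :
    ∫ p, conj (axisFun ξ p) * axisFun η p ∂(additiveMeasure t) = S t (η - ξ) := by
  rw [integral_additive t]
  · have h2 : ∫ y in Icc t (t + 1), conj (axisFun ξ (0, y)) * axisFun η (0, y) = 0 := by
      apply integral_eq_zero_of_ae
      have : ∀ᵐ y : ℝ ∂(volume.restrict (Icc t (t + 1))), y ≠ 0 := by
        apply ae_restrict_of_ae
        exact Measure.ae_ne volume 0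
      filter_upwards [this] with y hy
      simp [axisFun, hy]
    rw [h2, add_zero, S]
    apply setIntegral_congr_fun measurableSet_Icc
    intro x _
    simp only [axisFun]
    rw [indicator_of_mem (by simp), indicator_of_mem (by simp), conj_exp_two_pi, ← Complex.exp_add]
    congr 1
    push_cast
    ring
  · exact (Complex.continuous_conj.measurable.comp (measurable_axisFun ξ)).mul (measurable_axisFun η)
  · refine ⟨1, fun p => ?_⟩
    rw [norm_mul, RCLike.norm_conj]
    have h1 := norm_axisFun_le ξ p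
    have h2 := norm_axisFun_le η p
    have h3 := norm_nonneg (axisFun ξ p)
    have h4 := norm_nonneg (axisFun η p)
    nlinarith

lemma inner_F_F (t ξ η : ℝ) : inner ℂ (F t ξ) (F t η) = S t (η - ξ) := by
  rw [MeasureTheory.L2.inner_def, ← inner_axis_axis t ξ η]
  apply integral_congr_ae
  filter_upwards [(memLp_axisFun t ξ).coeFn_toLp, (memLp_axisFun t η).coeFn_toLp] with p h1 h2
  rw [F, F, h1, h2]
  simp [mul_comm]

lemma inner_b_F (t ξ : ℝ) (l : ℝ × ℝ) (v : Lp ℂ 2 (additiveMeasure t))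
    (hv : (v : ℝ × ℝ → ℂ) =ᵐ[additiveMeasure t] fun p => ((Real.sqrt 2 : ℝ) : ℂ)⁻¹ * expo l p) :
    inner ℂ v (F t ξ) = ((Real.sqrt 2 : ℝ) : ℂ)⁻¹ * S t (ξ - l.1) := by
  rw [MeasureTheory.L2.inner_def, ← inner_expo_axis t ξ l, ← integral_const_mul]
  apply integral_congr_ae
  filter_upwards [hv, (memLp_axisFun t ξ).coeFn_toLp] with p h1 h2
  rw [F, h1, h2]
  simp only [RCLike.inner_apply, map_mul, map_inv₀, Complex.conj_ofReal]
  ring

lemma inner_b_b (t : ℝ) (l l' : ℝ × ℝ) (v w : Lp ℂ 2 (additiveMeasure t))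
    (hv : (v : ℝ × ℝ → ℂ) =ᵐ[additiveMeasure t] fun p => ((Real.sqrt 2 : ℝ) : ℂ)⁻¹ * expo l p)
    (hw : (w : ℝ × ℝ → ℂ) =ᵐ[additiveMeasure t] fun p => ((Real.sqrt 2 : ℝ) : ℂ)⁻¹ * expo l' p) :
    inner ℂ v w = 2⁻¹ * (S t (l'.1 - l.1) + S t (l'.2 - l.2)) := by
  have h : ∫ p, conj (expo l p) * expo l' p ∂(additiveMeasure t) =
      S t (l'.1 - l.1) + S t (l'.2 - l.2) := by
    rw [integral_additive t]
    · rw [S, S]
      congr 1
      · apply setIntegral_congr_fun measurableSet_Icc
        intro x _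
        simp only [expo]
        rw [conj_exp_two_pi, ← Complex.exp_add]
        congr 1
        push_cast
        ring
      · apply setIntegral_congr_fun measurableSet_Icc
        intro x _
        simp only [expo]
        rw [conj_exp_two_pi, ← Complex.exp_add]
        congr 1
        push_cast
        ring
    · exact (Complex.continuous_conj.measurable.comp (measurable_expo l)).mul (measurable_expo l')
    · refine ⟨1, fun p => ?_⟩
      rw [norm_mul, RCLike.norm_conj, norm_expo, norm_expo, one_mul]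
  rw [MeasureTheory.L2.inner_def, ← h, ← integral_const_mul]
  apply integral_congr_ae
  filter_upwards [hv, hw] with p h1 h2
  rw [h1, h2]
  have h2' : ((Real.sqrt 2 : ℝ) : ℂ)⁻¹ * ((Real.sqrt 2 : ℝ) : ℂ)⁻¹ = 2⁻¹ := by
    rw [← mul_inv, ← Complex.ofReal_mul, Real.mul_self_sqrt (by norm_num)]
    norm_num
  simp only [RCLike.inner_apply, map_mul, map_inv₀, Complex.conj_ofReal]
  rw [← h2']
  ring

/-! ### Separation of the first coordinates -/

lemma S_sinc (t u : ℝ) :
    S t u = Complex.exp (π * Complex.I * (((2 * t + 1) * u : ℝ) : ℂ)) *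
      ((Real.sinc (π * u) : ℝ) : ℂ) := by
  by_cases hu : u = 0
  · subst hu
    rw [S_zero]
    simp
  · rw [S_eq t u hu, Real.sinc_of_ne_zero (by positivity)]

lemma norm_phase (a : ℝ) : ‖Complex.exp (π * Complex.I * (a : ℂ))‖ = 1 := by
  rw [show (π : ℂ) * Complex.I * (a : ℂ) = ((π * a : ℝ) : ℂ) * Complex.I by push_cast; ring]
  exact Complex.norm_exp_ofReal_mul_I _

lemma norm_S (t u : ℝ) : ‖S t u‖ = |Real.sinc (π * u)| := by
  rw [S_sinc, norm_mul, norm_phase, one_mul, Complex.norm_real, Real.norm_eq_abs]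

lemma sinc_abs (x : ℝ) : Real.sinc |x| = Real.sinc x := by
  rcases abs_cases x with ⟨h, _⟩ | ⟨h, _⟩ <;> rw [h]
  exact Real.sinc_neg x

lemma sinc_ge_half (y : ℝ) (h1 : |y| ≤ 11 / 20 * π) : 1 / 2 ≤ Real.sinc y := by
  rw [← sinc_abs]
  by_cases h0 : |y| = 0
  · rw [h0]; norm_num
  have h0' : 0 < |y| := lt_of_le_of_ne (abs_nonneg y) (Ne.symm h0)
  have hpi : π < 3.1416 := Real.pi_lt_d4
  have hs : |y| - |y| ^ 3 / 6 ≤ Real.sin |y| := Real.sin_ge_sub_cube h0'.le
  rw [Real.sinc_of_ne_zero h0, le_div_iff₀ h0']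
  have hy1 : |y| ≤ 1.728 := by linarith
  have hy2 : |y| ^ 2 ≤ 3 := by nlinarith
  nlinarith

lemma sinc_strictAnti {a b : ℝ} (ha : 0 ≤ a) (hab : a < b) (hb : b ≤ π) :
    Real.sinc b < Real.sinc a := by
  have hb0 : 0 < b := lt_of_le_of_lt ha hab
  by_cases ha0 : a = 0
  · subst ha0
    rw [Real.sinc_zero, Real.sinc_of_ne_zero hb0.ne', div_lt_one hb0]
    exact Real.sin_lt hb0
  · have ha' : 0 < a := lt_of_le_of_ne ha (Ne.symm ha0)
    have := strictConcaveOn_sin_Icc.secant_strict_mono (a := 0) (x := a) (y := b)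
      ⟨le_rfl, Real.pi_pos.le⟩ ⟨ha, by linarith⟩ ⟨hb0.le, hb⟩ ha0 hb0.ne' hab
    rw [Real.sinc_of_ne_zero ha0, Real.sinc_of_ne_zero hb0.ne']
    simpa using this

lemma separation (t u₁ u₂ : ℝ) (ht : -(1 / 2) ≤ t) (ht0 : t < 0)
    (h : S t u₁ + S t u₂ = 0) : 11 / 20 ≤ |u₁| ∨ 1 ≤ 2 * (2 * t + 1) * |u₁| := by
  by_cases hu : 11 / 20 ≤ |u₁|
  · exact Or.inl hu
  right
  push Not at hu
  have hpi3 : 3 < π := Real.pi_gt_three
  have hpi4 : 3.14 < π := Real.pi_gt_d2
  have hpi : 0 < π := Real.pi_pos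
  have e1 : |π * u₁| = π * |u₁| := by rw [abs_mul, abs_of_pos hpi]
  have e2 : |π * u₂| = π * |u₂| := by rw [abs_mul, abs_of_pos hpi]
  have hs1 : 1 / 2 ≤ Real.sinc (π * u₁) := by
    apply sinc_ge_half
    rw [e1]
    nlinarith
  have hnorm : |Real.sinc (π * u₂)| = Real.sinc (π * u₁) := by
    have : S t u₁ = - S t u₂ := eq_neg_of_add_eq_zero_left h
    have h2 := congrArg norm this
    rw [norm_neg, norm_S, norm_S, abs_of_pos (by linarith : 0 < Real.sinc (π * u₁))] at h2
    exact h2.symm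
  have hu2 : π * |u₂| ≤ 2 := by
    by_contra hcon
    push Not at hcon
    have hne : π * u₂ ≠ 0 := by
      intro h0
      rw [h0] at e2
      rw [← e2] at hcon
      simp at hcon
      linarith
    have h3 : |Real.sinc (π * u₂)| ≤ (π * |u₂|)⁻¹ := by
      rw [Real.sinc_of_ne_zero hne, abs_div, e2, div_eq_mul_inv]
      have := Real.abs_sin_le_one (π * u₂)
      have h5 : 0 < (π * |u₂|)⁻¹ := by positivity
      nlinarith
    have h4 : (π * |u₂|)⁻¹ < 1 / 2 := by
      rw [inv_lt_comm₀ (by linarith) (by norm_num)]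
      linarith
    linarith
  have hs2 : 0 < Real.sinc (π * u₂) := by
    rw [← sinc_abs, e2]
    by_cases h0 : π * |u₂| = 0
    · rw [h0]; norm_num
    · have h1 : 0 < π * |u₂| := lt_of_le_of_ne (by positivity) (Ne.symm h0)
      rw [Real.sinc_of_ne_zero h0]
      exact div_pos (Real.sin_pos_of_pos_of_lt_pi h1 (by linarith)) h1
  have hs : Real.sinc (π * u₂) = Real.sinc (π * u₁) := by
    rw [← hnorm, abs_of_pos hs2]
  -- equal absolute values
  have habs : |u₁| = |u₂| := by
    have k1 : Real.sinc (π * |u₁|) = Real.sinc (π * u₁) := by rw [← e1, sinc_abs]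
    have k2 : Real.sinc (π * |u₂|) = Real.sinc (π * u₂) := by rw [← e2, sinc_abs]
    rcases lt_trichotomy |u₁| |u₂| with hlt | heq | hgt
    · have := sinc_strictAnti (a := π * |u₁|) (b := π * |u₂|) (by positivity)
        (by gcongr) (by linarith)
      linarith
    · exact heq
    · have := sinc_strictAnti (a := π * |u₂|) (b := π * |u₁|) (by positivity)
        (by gcongr) (by nlinarith)
      linarith
  -- phases are opposite
  have hphase : Complex.exp (π * Complex.I * (((2 * t + 1) * u₁ : ℝ) : ℂ)) =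
      - Complex.exp (π * Complex.I * (((2 * t + 1) * u₂ : ℝ) : ℂ)) := by
    rw [S_sinc, S_sinc, hs, ← add_mul] at h
    have hne : ((Real.sinc (π * u₁) : ℝ) : ℂ) ≠ 0 := by
      exact_mod_cast (by linarith : Real.sinc (π * u₁) ≠ 0)
    have := (mul_eq_zero.1 h).resolve_right hne
    exact eq_neg_of_add_eq_zero_left this
  have hu12 : u₁ = u₂ ∨ u₁ = -u₂ := abs_eq_abs.1 habs
  rcases hu12 with heq | hneg
  · exfalso
    rw [heq] at hphase
    have : Complex.exp (π * Complex.I * (((2 * t + 1) * u₂ : ℝ) : ℂ)) = 0 :=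
      self_eq_neg.1 hphase
    exact Complex.exp_ne_zero _ this
  · -- `exp (2 π i α u₁) = -1`
    by_contra hcon
    push Not at hcon
    set α : ℝ := 2 * t + 1 with hα
    have hα0 : 0 ≤ α := by rw [hα]; linarith
    have h5 : Complex.exp (((2 * π * (α * u₁) : ℝ) : ℂ) * Complex.I) = -1 := by
      have h6 : Complex.exp (π * Complex.I * ((α * u₁ : ℝ) : ℂ)) *
          Complex.exp (-(π * Complex.I * ((α * u₂ : ℝ) : ℂ))) = -1 := by
        rw [hphase, neg_mul, ← Complex.exp_add, add_neg_cancel, Complex.exp_zero]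
      rw [← Complex.exp_add] at h6
      rw [← h6]
      congr 1
      have : u₂ = -u₁ := by rw [hneg]; ring
      rw [this]
      push_cast
      ring
    have h7 : Real.cos (2 * π * (α * u₁)) = -1 := by
      have := congrArg Complex.re h5
      rw [Complex.exp_ofReal_mul_I_re] at this
      simpa using this
    have hbound : |2 * π * (α * u₁)| < π := by
      rw [abs_mul (2 * π), abs_mul α, abs_of_pos (by positivity : (0:ℝ) < 2 * π),
        abs_of_nonneg hα0]
      nlinarith
    have h8 : Real.cos |2 * π * (α * u₁)| = -1 := by rw [Real.cos_abs, h7]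
    have h9 : Real.cos π < Real.cos |2 * π * (α * u₁)| :=
      Real.cos_lt_cos_of_nonneg_of_le_pi (abs_nonneg _) le_rfl hbound
    rw [Real.cos_pi] at h9
    linarith

/-- **Main theorem.** For `-1/2 ≤ t < 0` the space `L²` of the measure
`m|[t,t+1] × δ₀ + δ₀ × m|[t,t+1]` has no exponential orthonormal basis. -/
theorem result (t : ℝ) (ht : -(1 / 2) ≤ t) (ht0 : t < 0) :
    ¬ ∃ L : Set (ℝ × ℝ), IsExponentialONB (additiveMeasure t) L := by
  rintro ⟨L, b, hb⟩
  set β : ℝ := max (2 * t + 1) (10 / 11) with hβ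
  have hβ1 : β < 1 := by
    rw [hβ]
    exact max_lt (by linarith) (by norm_num)
  have hβ0 : 10 / 11 ≤ β := le_max_right _ _
  have hβα : 2 * t + 1 ≤ β := le_max_left _ _
  have hβpos : 0 < β := by linarith
  refine Pool.Agent.Q168.Density.no_density_two (fun l : L => l.1.1) (1 / (2 * β)) ?_ ?_
    (fun u => ‖S t u‖ ^ 2) (fun u => by positivity) ?_ ?_ ?_
  · rw [lt_div_iff₀ (by positivity)]
    linarith
  · intro l l' hll
    have horth : inner ℂ (b l') (b l) = 0 := b.orthonormal.2 hll.symm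
    rw [inner_b_b t l' l _ _ (hb l') (hb l)] at horth
    have h0 : S t (l.1.1 - l'.1.1) + S t (l.1.2 - l'.1.2) = 0 := by
      have h2 : (2 : ℂ)⁻¹ ≠ 0 := by norm_num
      exact (mul_eq_zero.1 horth).resolve_left h2
    rw [div_le_iff₀ (by positivity)]
    rcases separation t _ _ ht ht0 h0 with h1 | h1
    · nlinarith
    · nlinarith [abs_nonneg (l.1.1 - l'.1.1)]
  · intro u hu
    have h1 := norm_S_le t u hu
    have hu' : 0 < |u| := abs_pos.2 hu
    have h2 : 1 / (π * |u|) ≤ 1 / |u| := by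
      apply one_div_le_one_div_of_le hu'
      have := Real.pi_gt_three
      nlinarith
    calc ‖S t u‖ ^ 2 ≤ (1 / |u|) ^ 2 := by gcongr; linarith
      _ = (u ^ 2)⁻¹ := by rw [one_div, inv_pow, sq_abs]
  · intro y K
    have horth : Orthonormal ℂ (fun k : ℕ => F t (k : ℝ)) := by
      rw [orthonormal_iff_ite]
      intro i j
      rw [inner_F_F]
      split_ifs with hij
      · subst hij
        rw [sub_self, S_zero]
      · have hne : ((j : ℝ) - (i : ℝ)) ≠ 0 := by
          intro h
          exact hij (by exact_mod_cast (sub_eq_zero.1 h).symm)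
        rw [S_eq _ _ hne]
        have : Real.sin (π * ((j : ℝ) - i)) = 0 := by
          have := Real.sin_int_mul_pi ((j : ℤ) - i)
          push_cast at this
          rw [mul_comm]
          exact this
        rw [this]
        simp
    have h1 := horth.sum_inner_products_le (x := F t y) (s := Finset.range K)
    have hF : ‖F t y‖ ^ 2 = 1 := by
      have h2 := inner_F_F t y y
      rw [inner_self_eq_norm_sq_to_K, sub_self, S_zero] at h2
      have h3 : ((‖F t y‖ ^ 2 : ℝ) : ℂ) = ((1 : ℝ) : ℂ) := by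
        push_cast
        simpa using h2
      exact_mod_cast h3
    rw [hF] at h1
    refine le_trans (Finset.sum_le_sum (fun k _ => le_of_eq ?_)) h1
    rw [inner_F_F, norm_S, norm_S, show π * (y - k) = -(π * (k - y)) by ring, Real.sinc_neg]
  · intro k
    have h1 := b.hasSum_inner_mul_inner (F t k) (F t k)
    rw [inner_F_F, sub_self, S_zero] at h1
    have h2 := h1.mul_left 2
    rw [mul_one] at h2
    have h3 : ∀ l : L, 2 * (inner ℂ (F t k) (b l) * inner ℂ (b l) (F t k)) =
        ((‖S t (k - l.1.1)‖ ^ 2 : ℝ) : ℂ) := by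
      intro l
      rw [← inner_conj_symm, inner_b_F t k l _ (hb l), mul_comm ((starRingEnd ℂ) _),
        Complex.mul_conj, Complex.normSq_eq_norm_sq, norm_mul, norm_inv, Complex.norm_real,
        Real.norm_eq_abs, abs_of_nonneg (Real.sqrt_nonneg _), mul_pow, inv_pow,
        Real.sq_sqrt (by norm_num)]
      push_cast
      ring
    simp_rw [h3] at h2
    have h4 : HasSum (fun l : L => ((‖S t (k - l.1.1)‖ ^ 2 : ℝ) : ℂ)) ((2 : ℝ) : ℂ) := by
      simpa using h2
    exact_mod_cast h4

end Pool.Agent.Results.MP_476b1b_an.NoExponentialONB
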